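import Mathlib
import Pool.Agent.H19.KnData

set_option autoImplicit false
set_option maxRecDepth 100000

namespace Pool.Agent.Results.MP_573991_co.Counter
open Pool.Agent.H19.KnData

/-- the Kneser graph: `k`-subsets of an `n`-set, adjacent when disjoint -/
def KG (n k : ℕ) : SimpleGraph {s : Finset (Fin n) // s.card = k} :=
  SimpleGraph.fromRel fun s t => Disjoint s.1 t.1

/-- `D` directs every edge of `G` in exactly one way -/
def IsOrientation {V : Type} (G : SimpleGraph V) (D : V → V → Prop) : Prop :=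
  (∀ a b, D a b → G.Adj a b) ∧ ∀ a b, G.Adj a b → (D a b ↔ ¬ D b a)

/-- `c` lists the vertices of a cycle of length `L` in cyclic order -/
def IsCyc {V : Type} (G : SimpleGraph V) (L : ℕ) (c : ZMod L → V) : Prop :=
  3 ≤ L ∧ Function.Injective c ∧ ∀ i, G.Adj (c i) (c (i + 1))

/-- vertex `i` of the cycle has positive in-degree and positive out-degree in the cycle -/
def Mixed {V : Type} (D : V → V → Prop) (L : ℕ) (c : ZMod L → V) (i : ZMod L) : Prop :=
  (D (c (i - 1)) (c i) ∨ D (c (i + 1)) (c i)) ∧ (D (c i) (c (i - 1)) ∨ D (c i) (c (i + 1)))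

/-- a shortest odd cycle -/
def ShortestOdd {V : Type} (G : SimpleGraph V) (L : ℕ) (c : ZMod L → V) : Prop :=
  IsCyc G L c ∧ Odd L ∧ ∀ M, M < L → Odd M → ∀ d : ZMod M → V, ¬ IsCyc G M d

/-- every shortest odd cycle is alternating under some orientation -/
def Good {V : Type} (G : SimpleGraph V) : Prop :=
  ∃ D, IsOrientation G D ∧ ∀ L c, ShortestOdd G L c → ∃! i, Mixed D L c i

def st (m : ℕ) : Finset (Fin 8) := Finset.univ.filter fun i => m.testBit i.1

def vx (m : ℕ) : {s : Finset (Fin 8) // s.card = 3} :=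
  if h : (st m).card = 3 then ⟨st m, h⟩ else ⟨{0, 1, 2}, by decide⟩

def ad (a b : ℕ) : Bool :=
  decide ((st a).card = 3) && decide ((st b).card = 3) && decide (Disjoint (st a) (st b))

lemma vx_val (a : ℕ) (h : (st a).card = 3) : (vx a).1 = st a := by simp [vx, h]

lemma ad_adj (a b : ℕ) (h : ad a b = true) :
    (KG 8 3).Adj (vx a) (vx b) ∧ (vx a).1 = st a ∧ (vx b).1 = st b := by
  simp only [ad, Bool.and_eq_true, decide_eq_true_eq] at h
  obtain ⟨⟨h1, h2⟩, h3⟩ := h
  refine ⟨?_, vx_val a h1, vx_val b h2⟩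
  rw [KG, SimpleGraph.fromRel_adj, vx_val a h1, vx_val b h2]
  refine ⟨fun e => ?_, Or.inl h3⟩
  have e2 : st a = st b := by rw [← vx_val a h1, ← vx_val b h2, e]
  rw [← e2, disjoint_self] at h3
  rw [h3] at h1
  simp at h1

def chk : T → List (ℕ × ℕ) → Bool
  | .l a b c d e, A => decide ((a, b) ∈ A) && decide ((b, c) ∈ A) && decide ((c, d) ∈ A) &&
      ad a b && ad b c && ad c d && ad d e && ad e a && decide (st a ≠ st c) &&
      decide (st a ≠ st d) && decide (st b ≠ st d) && decide (st b ≠ st e) && decide (st c ≠ st e)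
  | .n a b x y, A => ad a b && chk x ((a, b) :: A) && chk y ((b, a) :: A)

lemma tree_ok : chk tree [] = true := by decide +kernel

lemma no_tri (d : ZMod 3 → {s : Finset (Fin 8) // s.card = 3}) : ¬ IsCyc (KG 8 3) 3 d := by
  rintro ⟨-, -, h⟩
  have dj : ∀ i, Disjoint (d i).1 (d (i + 1)).1 := fun i => by
    have := h i
    rw [KG, SimpleGraph.fromRel_adj] at this
    rcases this.2 with a | a
    · exact a
    · exact a.symm
  have h0 : Disjoint (d 0).1 (d 1).1 := dj 0
  have h1 : Disjoint (d 1).1 (d 2).1 := dj 1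
  have h2 : Disjoint (d 2).1 (d 0).1 := dj 2
  have c1 : ((d 0).1 ∪ (d 1).1 ∪ (d 2).1).card = 9 := by
    rw [Finset.card_union_of_disjoint (Finset.disjoint_union_left.2 ⟨h2.symm, h1⟩),
      Finset.card_union_of_disjoint h0, (d 0).2, (d 1).2, (d 2).2]
  have := Finset.card_le_univ ((d 0).1 ∪ (d 1).1 ∪ (d 2).1)
  rw [c1] at this
  simp at this

lemma sound (D : _ → _ → Prop) (hD : IsOrientation (KG 8 3) D)
    (H : ∀ L c, ShortestOdd (KG 8 3) L c → ∃! i, Mixed D L c i) :
    ∀ (t : T) (A : List (ℕ × ℕ)), chk t A = true → (∀ p ∈ A, D (vx p.1) (vx p.2)) → False := by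
  intro t
  induction t with
  | l a b c d e =>
    intro A h hA
    simp only [chk, Bool.and_eq_true, decide_eq_true_eq] at h
    obtain ⟨⟨⟨⟨⟨⟨⟨⟨⟨⟨⟨⟨m1, m2⟩, m3⟩, a1⟩, a2⟩, a3⟩, a4⟩, a5⟩, n1⟩, n2⟩, n3⟩, n4⟩, n5⟩ := h
    obtain ⟨b1, ea, eb⟩ := ad_adj _ _ a1
    obtain ⟨b2, -, ec⟩ := ad_adj _ _ a2
    obtain ⟨b3, -, ed⟩ := ad_adj _ _ a3
    obtain ⟨b4, -, ee⟩ := ad_adj _ _ a4
    obtain ⟨b5, -, -⟩ := ad_adj _ _ a5
    have k1 : vx a ≠ vx c := fun q => n1 (by rw [← ea, ← ec, q])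
    have k2 : vx a ≠ vx d := fun q => n2 (by rw [← ea, ← ed, q])
    have k3 : vx b ≠ vx d := fun q => n3 (by rw [← eb, ← ed, q])
    have k4 : vx b ≠ vx e := fun q => n4 (by rw [← eb, ← ee, q])
    have k5 : vx c ≠ vx e := fun q => n5 (by rw [← ec, ← ee, q])
    have j1 := b1.ne
    have j2 := b2.ne
    have j3 := b3.ne
    have j4 := b4.ne
    have j5 := b5.ne
    let f : Fin 5 → {s : Finset (Fin 8) // s.card = 3} := ![vx a, vx b, vx c, vx d, vx e]
    have hc : ShortestOdd (KG 8 3) 5 f := by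
      refine ⟨⟨by norm_num, ?_, ?_⟩, by decide, ?_⟩
      · intro (i : Fin 5) (j : Fin 5) hij
        fin_cases i <;> fin_cases j <;> simp_all [f]
      · intro (i : Fin 5)
        fin_cases i
        · exact b1
        · exact b2
        · exact b3
        · exact b4
        · exact b5
      · intro M hM ho d hd
        have h3 := hd.1
        have : M = 3 := by obtain ⟨r, hr⟩ := ho; omega
        subst this
        exact no_tri d hd
    have x1 : Mixed D 5 f 1 := ⟨Or.inl (hA _ m1), Or.inr (hA _ m2)⟩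
    have x2 : Mixed D 5 f 2 := ⟨Or.inl (hA _ m2), Or.inr (hA _ m3)⟩
    exact absurd ((H 5 f hc).unique x1 x2) (by decide)
  | n a b x y ihx ihy =>
    intro A h hA
    simp only [chk, Bool.and_eq_true] at h
    obtain ⟨⟨h1, h2⟩, h3⟩ := h
    by_cases q : D (vx b) (vx a)
    · refine ihy _ h3 fun p hp => ?_
      rcases List.mem_cons.1 hp with rfl | hp
      · exact q
      · exact hA p hp
    · refine ihx _ h2 fun p hp => ?_
      rcases List.mem_cons.1 hp with rfl | hp
      · exact (hD.2 _ _ (ad_adj _ _ h1).1).2 q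
      · exact hA p hp

theorem result : ¬ Good (KG 8 3) ∧ ¬ ∀ n k : ℕ, 1 ≤ k → 2 * k ≤ n → Good (KG n k) := by
  have h : ¬ Good (KG 8 3) := by
    rintro ⟨D, hD, H⟩
    exact sound D hD H tree [] tree_ok (by simp)
  exact ⟨h, fun a => h (a 8 3 (by norm_num) (by norm_num))⟩

end Pool.Agent.Results.MP_573991_co.Counter
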